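import Pool.Agent.N44.FA.Stm

/-!
# Project FA (helper44), leaf NFQH (helper314)
-/

set_option autoImplicit false

namespace Pool.Agent.N314.FA

open Pool.Agent.N44.FA

theorem mulSingle_conj {S : ℕ → Type} [∀ k, Group (S k)] (w : ∀ k, S k) (k : ℕ) (s : S k) :
    w * Pi.mulSingle k s * w⁻¹ = Pi.mulSingle k (w k * s * (w k)⁻¹) := by
  funext i
  by_cases h : i = k
  · subst h
    simp
  · simp [Pi.mulSingle_eq_of_ne h]

theorem aux {G L : Type*} [Group G] [Group L] (φ : G →* L) (N : Subgroup L)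
    (hN : N.index ≠ 0) : (N.comap φ).index ≠ 0 := by
  rw [Subgroup.index_comap]
  intro h
  apply hN
  have := Subgroup.relIndex_eq_zero_of_le_right (H := N) (K := φ.range) (L := ⊤) le_top h
  simpa using this

theorem t_nfqh : S_NFQH := by
  intro S _ H hs hH w
  obtain ⟨L, hL⟩ : ∃ L, L = H ⊔ H.map (MulAut.conj w).toMonoidHom := ⟨_, rfl⟩
  rw [← hL]
  intro N hNn hNi hNs
  have h1 : H ≤ L := by rw [hL]; exact le_sup_left
  have h2 : ∀ h : ∀ k, S k, h ∈ H → w * h * w⁻¹ ∈ L := by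
    intro h hh
    rw [hL]
    apply (le_sup_right : H.map (MulAut.conj w).toMonoidHom ≤ _)
    exact ⟨h, hh, by simp [MulAut.conj_apply]⟩
  -- the first homomorphism
  have hA : ∀ (h : ∀ k, S k) (hh : h ∈ H), (⟨h, h1 hh⟩ : L) ∈ N := by
    have : N.comap (Subgroup.inclusion h1) = ⊤ := by
      apply hH _ (hNn.comap _) (aux _ _ hNi)
      intro k s h
      rw [Subgroup.mem_comap]
      exact hNs k s (h1 h)
    intro h hh
    have h3 : (⟨h, hh⟩ : H) ∈ N.comap (Subgroup.inclusion h1) := by rw [this]; trivial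
    exact h3
  -- the second homomorphism
  have hB : ∀ (h : ∀ k, S k) (hh : h ∈ H), (⟨w * h * w⁻¹, h2 h hh⟩ : L) ∈ N := by
    let φ : H →* L :=
      { toFun := fun h => ⟨w * h * w⁻¹, h2 h h.2⟩
        map_one' := by
          apply Subtype.ext
          simp
        map_mul' := by
          intro a b
          apply Subtype.ext
          simp [mul_assoc] }
    have : N.comap φ = ⊤ := by
      apply hH _ (hNn.comap _) (aux _ _ hNi)
      intro k s h
      rw [Subgroup.mem_comap]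
      have h3 : (Pi.mulSingle k (w k * s * (w k)⁻¹) : ∀ k, S k) ∈ L := h1 (hs k _)
      have h4 := hNs k (w k * s * (w k)⁻¹) h3
      have h5 : φ ⟨Pi.mulSingle k s, h⟩ = ⟨Pi.mulSingle k (w k * s * (w k)⁻¹), h3⟩ :=
        Subtype.ext (mulSingle_conj w k s)
      rw [h5]
      exact h4
    intro h hh
    have h3 : (⟨h, hh⟩ : H) ∈ N.comap φ := by rw [this]; trivial
    exact h3
  have hle : L ≤ N.map L.subtype := by
    refine le_trans hL.le (sup_le ?_ ?_)
    · intro h hh
      exact ⟨⟨h, h1 hh⟩, hA h hh, rfl⟩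
    · rintro _ ⟨h, hh, rfl⟩
      exact ⟨⟨w * h * w⁻¹, h2 h hh⟩, hB h hh, by simp [MulAut.conj_apply]⟩
  rw [eq_top_iff]
  rintro x -
  obtain ⟨y, hy, hyx⟩ := hle x.2
  have : y = x := Subtype.ext hyx
  rw [← this]
  exact hy

end Pool.Agent.N314.FA
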